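import Pool.Agent.Helper74_RL.Stmts

/-! # Ricci limits: completeness for a bi-Lipschitz distance (module BIC) -/

noncomputable section

open scoped ContDiff Topology ENNReal RealInnerProductSpace BoundedContinuousFunction
set_option maxSynthPendingDepth 3
open Set Metric Filter

namespace Pool.Agent.RLim.H59

open Pool.Agent.RLim

theorem bic : BicStmt := by
  intro Y inst d c C h hcomp
  refine @Metric.complete_of_cauchySeq_tendsto Y (bilMet h).toPseudoMetricSpace ?_
  intro u hu
  have h1 : ∀ ε > 0, ∃ N, ∀ m ≥ N, ∀ n ≥ N, d (u m) (u n) < ε :=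
    (@Metric.cauchySeq_iff Y ℕ (bilMet h).toPseudoMetricSpace _ _ u).1 hu
  have h2 : CauchySeq u := by
    rw [Metric.cauchySeq_iff]
    intro ε hε
    obtain ⟨N, hN⟩ := h1 (c * ε) (mul_pos h.c_pos hε)
    refine ⟨N, fun m hm n hn => ?_⟩
    have h3 := (h.low (u m) (u n)).trans_lt (hN m hm n hn)
    exact (mul_lt_mul_iff_right₀ h.c_pos).1 h3
  obtain ⟨a, ha⟩ := cauchySeq_tendsto_of_complete h2
  exact ⟨a, ha⟩

end Pool.Agent.RLim.H59
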